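import Mathlib

set_option autoImplicit false

/-! Fine mixed subdivisions of `n Δ_{d-1}` (the notion of the frozen statement S12235), regular cells
and the ladder condition. -/

namespace Pool.Agent.Helper28.SO

/-- The polytope `P(B) = B_1 + ... + B_n` of a labelled cell. -/
def cell {n d : ℕ} (B : Fin n → Finset (Fin d)) : Set (Fin d → ℝ) :=
  convexHull ℝ {x : Fin d → ℝ | ∃ f : Fin n → Fin d, (∀ i, f i ∈ B i) ∧
        ∀ k, x k = ((Finset.univ.filter (fun i => f i = k)).card : ℝ)}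

/-- `S` is (the set of maximal cells of) a fine mixed subdivision of `n Δ_{d-1}`. -/
def IsFineMixed (n d : ℕ) (S : Finset (Fin n → Finset (Fin d))) : Prop :=
  (∀ B ∈ S, (∀ i, (B i).Nonempty) ∧ ∑ i, ((B i).card - 1) = d - 1 ∧
      Module.finrank ℝ (vectorSpan ℝ (cell B)) = d - 1) ∧
  (∀ x : Fin d → ℝ, (∀ k, 0 ≤ x k) → ∑ k, x k = (n : ℝ) → ∃ B ∈ S, x ∈ cell B) ∧
  (∀ B ∈ S, ∀ C ∈ S, cell B ∩ cell C = ∅ ∨
      ∃ l m : Fin d → ℝ, ∀ F : Fin n → Finset (Fin d),
        F = (fun i => (B i).filter (fun k => ∀ k' ∈ B i, l k ≤ l k')) →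
        (F = (fun i => (C i).filter (fun k => ∀ k' ∈ C i, m k ≤ m k')) ∧
          cell B ∩ cell C = cell F))

/-- `U` is exactly the set of positions of the unmixed simplices of some fine mixed subdivision of
`n Δ_{d-1}`. -/
def Realized (n d : ℕ) (U : Finset (Fin d → ℕ)) : Prop :=
  ∃ S : Finset (Fin n → Finset (Fin d)), IsFineMixed n d S ∧
    (∀ v : Fin d → ℕ, v ∈ U ↔ ∃ B ∈ S, ∃ i, B i = Finset.univ ∧
        ∀ k, v k = (Finset.univ.filter (fun j => j ≠ i ∧ k ∈ B j)).card)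

/-- The spread-out condition of the frozen statement. -/
def SpreadOut (n d : ℕ) (U : Finset (Fin d → ℕ)) : Prop :=
  U.card = n ∧ (∀ v ∈ U, ∑ k, v k = n - 1) ∧
  (∀ W ⊆ U, W.Nonempty → ∀ m : Fin d → ℕ, (∀ w ∈ W, ∀ k, m k ≤ w k) →
      ∑ k, m k ≤ n - W.card)

/-- The colours where `w i - y` is minimal. -/
noncomputable def argm {n d : ℕ} (w : Fin n → Fin d → ℝ) (y : Fin d → ℝ) (i : Fin n) :
    Finset (Fin d) := by
  classical
  exact Finset.univ.filter (fun k => ∀ k', w i k - y k ≤ w i k' - y k')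

/-- All the entries of `w` are linearly independent over `ℚ`. -/
def Generic {n d : ℕ} (w : Fin n → Fin d → ℝ) : Prop :=
  LinearIndependent ℚ (fun p : Fin n × Fin d => w p.1 p.2)

/-- A ladder for the (ordered) vectors `v 0, v 1, ...`: sets `N l` of coordinates with
`∑_{k ∈ D} v i k ≥ #{l < i : N l ⊆ D}` for all `D`, with equality for `D = N i`. -/
def IsLadder {n d : ℕ} (v : Fin n → Fin d → ℕ) (N : Fin n → Finset (Fin d)) : Prop :=
  (∀ i D, (Finset.univ.filter (fun l => l < i ∧ N l ⊆ D)).card ≤ ∑ k ∈ D, v i k) ∧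
  (∀ i, ∑ k ∈ N i, v i k = (Finset.univ.filter (fun l => l < i ∧ N l ⊆ N i)).card)

end Pool.Agent.Helper28.SO
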