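import Pool.Agent.Helper9.SO.ExistsWeights
import Pool.Agent.Helper19.SO.Real
import Pool.Agent.Helper30.SO.Monotone

set_option autoImplicit false

namespace Pool.Agent.Helper28.SO

theorem realized_of_ladder {n d : ℕ} (hn : 1 ≤ n) (hd : 1 ≤ d) (v : Fin n → Fin d → ℕ)
    (hv : ∀ i, ∑ k, v i k = n - 1) (N : Fin n → Finset (Fin d)) (hN : IsLadder v N) :
    Realized n d (Finset.univ.image v) := by
  obtain ⟨w, σ, hw, hσ, hc⟩ := exists_weights hn hd v hv N hN
  exact realized_of_weights hn hd w hw v σ hσ hc _ (by intro u; simp)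

theorem ladder_of_spreadOut {n d : ℕ} (v : Fin n → Fin d → ℕ)
    (h : SpreadOut n d (Finset.univ.image v))
    (hmono : ∀ l i k, l < i → v l k ≠ 0 → v i k ≤ v l k) :
    IsLadder v (fun i => Finset.univ.filter (fun k => v i k = 0)) := by
  obtain ⟨hcard, hsum, hso⟩ := h
  have hinj : Function.Injective v := by
    have h1 : (Finset.univ.image v).card = (Finset.univ : Finset (Fin n)).card := by
      rw [hcard, Finset.card_univ, Fintype.card_fin]
    have h2 := Finset.card_image_iff.mp h1
    intro a b hab
    exact h2 (by simp) (by simp) hab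
  refine ladder_of_monotone v hinj (fun i => hsum _ (by simp)) ?_ hmono
  intro W hW m hm
  have h3 := hso (W.image v) (Finset.image_subset_image (Finset.subset_univ W)) (hW.image v) m
    (by
      intro w hw k
      obtain ⟨i, hi, rfl⟩ := Finset.mem_image.mp hw
      exact hm i hi k)
  rwa [Finset.card_image_of_injective W hinj] at h3

end Pool.Agent.Helper28.SO
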